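import Pool.Agent.H80.JE.Targets
import Pool.Agent.H80.JD.Basic
import Pool.Agent.H33.JD.KH

/-!
# Board je_modules (MP_38f78d_pr), module EXM
-/

set_option autoImplicit false

namespace Pool.Agent.H39.JE

open Finset Filter Topology Pool.Agent.H80.JD Pool.Agent.H80.JE

theorem sum_exp_lin_le : ∀ (m : ℕ) (D : Fin m → ℝ),
    ∑ v : Fin m → Bool, Real.exp (lin D v) ≤ 2 ^ m * Real.exp ((∑ j, D j ^ 2) / 2) := by
  intro m
  induction m with
  | zero =>
    intro D
    simp [lin]
  | succ m ih =>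
    intro D
    have ht : ((sg true : ℤ) : ℝ) = -1 := by simp [sg]
    have hf : ((sg false : ℤ) : ℝ) = 1 := by simp [sg]
    have h1 : ∀ w : Fin m → Bool, Real.exp (lin D (Fin.cons true w)) +
        Real.exp (lin D (Fin.cons false w)) =
        2 * Real.cosh (D 0) * Real.exp (lin (fun j => D j.succ) w) := by
      intro w
      rw [Pool.Agent.H33.JD.KH.lin_cons, Pool.Agent.H33.JD.KH.lin_cons, ht, hf, Real.cosh_eq,
        Real.exp_add, Real.exp_add]
      have e1 : D 0 * -1 = - D 0 := by ring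
      have e2 : D 0 * 1 = D 0 := by ring
      rw [e1, e2]
      ring
    rw [Pool.Agent.H33.JD.KH.sum_cons (fun v => Real.exp (lin D v)),
      sum_congr rfl (fun w _ => h1 w), ← mul_sum]
    have h2 := ih (fun j => D j.succ)
    have h3 : Real.cosh (D 0) ≤ Real.exp (D 0 ^ 2 / 2) := Real.cosh_le_exp_half_sq (D 0)
    have h4 : 0 ≤ ∑ v : Fin m → Bool, Real.exp (lin (fun j => D j.succ) v) :=
      sum_nonneg (fun v _ => (Real.exp_pos _).le)
    have hs : ∑ j, D j ^ 2 = D 0 ^ 2 + ∑ j : Fin m, D j.succ ^ 2 := Fin.sum_univ_succ _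
    calc 2 * Real.cosh (D 0) * ∑ v : Fin m → Bool, Real.exp (lin (fun j => D j.succ) v)
        ≤ 2 * Real.exp (D 0 ^ 2 / 2) * ∑ v : Fin m → Bool, Real.exp (lin (fun j => D j.succ) v) :=
          mul_le_mul_of_nonneg_right (by linarith) h4
      _ ≤ 2 * Real.exp (D 0 ^ 2 / 2) * (2 ^ m * Real.exp ((∑ j : Fin m, D j.succ ^ 2) / 2)) :=
          mul_le_mul_of_nonneg_left h2 (by positivity)
      _ = 2 ^ (m + 1) * Real.exp ((∑ j, D j ^ 2) / 2) := by
          rw [hs, add_div, Real.exp_add]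
          ring

theorem lin_smul' {m : ℕ} (a : ℝ) (D : Fin m → ℝ) (v : Fin m → Bool) :
    lin (fun j => a * D j) v = a * lin D v := by
  unfold lin
  rw [mul_sum]
  exact sum_congr rfl (fun j _ => by ring)

theorem sum_cosh_le (m : ℕ) (D : Fin m → ℝ) (η : ℝ) :
    ∑ v : Fin m → Bool, 2 * Real.cosh (η * lin D v) ≤
      2 * (2 ^ m * Real.exp (η ^ 2 * (∑ j, D j ^ 2) / 2)) := by
  have h1 := sum_exp_lin_le m (fun j => η * D j)
  have h2 := sum_exp_lin_le m (fun j => (-η) * D j)
  have e1 : ∑ j, (η * D j) ^ 2 = η ^ 2 * ∑ j, D j ^ 2 := by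
    rw [mul_sum]
    exact sum_congr rfl (fun j _ => by ring)
  have e2 : ∑ j, (-η * D j) ^ 2 = η ^ 2 * ∑ j, D j ^ 2 := by
    rw [mul_sum]
    exact sum_congr rfl (fun j _ => by ring)
  rw [e1] at h1
  rw [e2] at h2
  have h3 : ∑ v : Fin m → Bool, 2 * Real.cosh (η * lin D v) =
      ∑ v : Fin m → Bool, Real.exp (lin (fun j => η * D j) v) +
        ∑ v : Fin m → Bool, Real.exp (lin (fun j => (-η) * D j) v) := by
    rw [← sum_add_distrib]
    refine sum_congr rfl (fun v _ => ?_)
    rw [lin_smul', lin_smul', Real.cosh_eq]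
    have e3 : -η * lin D v = -(η * lin D v) := by ring
    rw [e3]
    ring
  rw [h3]
  linarith

theorem exm : T_EXM := by
  intro m τ D R η hη hR hRD hηR
  set y : ℝ := (η * R) ^ 2 / 2 with hy
  have hηR0 : 0 ≤ η * R := mul_nonneg hη hR
  have hy0 : 0 ≤ y := by positivity
  have hy1 : y ≤ 1 / 2 := by
    rw [hy]
    nlinarith
  have hexp : Real.exp y ≤ 1 + 2 * y := by
    have h1 : 1 - y ≤ Real.exp (-y) := by
      have := Real.add_one_le_exp (-y)
      linarith
    have h2 : Real.exp y * Real.exp (-y) = 1 := by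
      rw [← Real.exp_add]
      simp
    have h3 : Real.exp y * (1 - y) ≤ 1 :=
      (mul_le_mul_of_nonneg_left h1 (Real.exp_pos _).le).trans h2.le
    have h4 : 1 ≤ (1 + 2 * y) * (1 - y) := by nlinarith
    have h5 : 0 < 1 - y := by linarith
    exact le_of_mul_le_mul_right (h3.trans h4) h5
  have hcosh := sum_cosh_le m D η
  rw [← hRD] at hcosh
  have e0 : η ^ 2 * R ^ 2 / 2 = y := by rw [hy]; ring
  rw [e0] at hcosh
  -- pointwise bound
  have hpt : ∀ v : Fin m → Bool,
      Real.exp (-(η * (((sg (cs v) : ℤ) : ℝ) * lin D v))) ≤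
        1 - η * (((sg (cs v) : ℤ) : ℝ) * lin D v) + (2 * Real.cosh (η * lin D v) - 2) := by
    intro v
    have hc : 2 * Real.cosh (η * lin D v) =
        Real.exp (η * (((sg (cs v) : ℤ) : ℝ) * lin D v)) +
          Real.exp (-(η * (((sg (cs v) : ℤ) : ℝ) * lin D v))) := by
      rcases sg_cases (cs v) with h | h
      · rw [h, Real.cosh_eq]
        push_cast
        rw [one_mul]
        ring
      · rw [h, Real.cosh_eq]
        push_cast
        have e1 : η * (-1 * lin D v) = -(η * lin D v) := by ring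
        rw [e1, neg_neg]
        ring
    have h1 := Real.add_one_le_exp (η * (((sg (cs v) : ℤ) : ℝ) * lin D v))
    rw [hc]
    linarith
  have hnn : ∀ v : Fin m → Bool, 0 ≤ 2 * Real.cosh (η * lin D v) - 2 := by
    intro v
    have := Real.one_le_cosh (η * lin D v)
    linarith
  calc ∑ v ∈ bigs τ m, Real.exp (-(η * (((sg (cs v) : ℤ) : ℝ) * lin D v)))
      ≤ ∑ v ∈ bigs τ m, (1 - η * (((sg (cs v) : ℤ) : ℝ) * lin D v) +
          (2 * Real.cosh (η * lin D v) - 2)) := sum_le_sum (fun v _ => hpt v)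
    _ = (bigs τ m).card - η * ∑ v ∈ bigs τ m, ((sg (cs v) : ℤ) : ℝ) * lin D v +
          ∑ v ∈ bigs τ m, (2 * Real.cosh (η * lin D v) - 2) := by
        rw [sum_add_distrib, sum_sub_distrib, ← mul_sum]
        simp
    _ ≤ (bigs τ m).card - η * ∑ v ∈ bigs τ m, ((sg (cs v) : ℤ) : ℝ) * lin D v +
          ∑ v : Fin m → Bool, (2 * Real.cosh (η * lin D v) - 2) := by
        have := sum_le_sum_of_subset_of_nonneg (subset_univ (bigs τ m))
          (fun v _ _ => hnn v)
        linarith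
    _ ≤ (bigs τ m).card - η * ∑ v ∈ bigs τ m, ((sg (cs v) : ℤ) : ℝ) * lin D v +
          2 * (η * R) ^ 2 * 2 ^ m := by
        have h1 : ∑ v : Fin m → Bool, (2 * Real.cosh (η * lin D v) - 2) =
            ∑ v : Fin m → Bool, 2 * Real.cosh (η * lin D v) - 2 * 2 ^ m := by
          rw [sum_sub_distrib]
          simp
          ring
        have h2 : (0 : ℝ) < 2 ^ m := by positivity
        have h3 : 2 * (2 ^ m * Real.exp y) ≤ 2 * (2 ^ m * (1 + 2 * y)) := by
          have := mul_le_mul_of_nonneg_left hexp h2.le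
          linarith
        have h4 : 2 * ((2 : ℝ) ^ m * (1 + 2 * y)) = 2 * 2 ^ m + 2 * (η * R) ^ 2 * 2 ^ m := by
          rw [hy]
          ring
        rw [h1]
        linarith

end Pool.Agent.H39.JE
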